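import Pool.Agent.W973.IP.FDefs

/-!
# Project IP: instances and isolated solutions
-/

set_option autoImplicit false

namespace Pool.Agent.W308.IP

open Pool.Agent.W973.IP Pool.Agent.NPC Pool.Agent.NPC.ER Pool.Agent.NPC.H612

theorem tren_eval (σ : ℕ → ℕ) (x : ℕ → ℝ) (t : Tm) :
    (tren σ t).eval x = t.eval (fun i => x (σ i)) := by
  induction t with
  | var i => rfl
  | zero => rfl
  | one => rfl
  | add s t ihs iht => simp only [tren, Tm.eval, ihs, iht]
  | neg t ih => simp only [tren, Tm.eval, ih]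
  | mul s t ihs iht => simp only [tren, Tm.eval, ihs, iht]

theorem fren_holds (σ : ℕ → ℕ) (x : ℕ → ℝ) (φ : Fm) :
    (fren σ φ).Holds x ↔ φ.Holds (fun i => x (σ i)) := by
  induction φ with
  | eq s t => simp only [fren, Fm.Holds, tren_eval]
  | lt s t => simp only [fren, Fm.Holds, tren_eval]
  | le s t => simp only [fren, Fm.Holds, tren_eval]
  | not φ ih => simp only [fren, Fm.Holds, ih]
  | and φ ψ ih1 ih2 => simp only [fren, Fm.Holds, ih1, ih2]
  | or φ ψ ih1 ih2 => simp only [fren, Fm.Holds, ih1, ih2]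

theorem eval_congr (x y : ℕ → ℝ) (t : Tm) (h : ∀ i ∈ tvars t, x i = y i) :
    t.eval x = t.eval y := by
  induction t with
  | var i => exact h i (by simp [tvars, Tm.toks, tokv, Tok.code])
  | zero => rfl
  | one => rfl
  | add s t ihs iht =>
    have h1 : ∀ i ∈ tvars s, x i = y i := fun i hi => h i (by
      simp only [tvars, Tm.toks, List.flatMap_append, List.mem_append] at hi ⊢
      exact Or.inl (Or.inl hi))
    have h2 : ∀ i ∈ tvars t, x i = y i := fun i hi => h i (by
      simp only [tvars, Tm.toks, List.flatMap_append, List.mem_append] at hi ⊢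
      exact Or.inl (Or.inr hi))
    simp only [Tm.eval, ihs h1, iht h2]
  | neg t ih =>
    have h2 : ∀ i ∈ tvars t, x i = y i := fun i hi => h i (by
      simp only [tvars, Tm.toks, List.flatMap_append, List.mem_append] at hi ⊢
      exact Or.inl hi)
    simp only [Tm.eval, ih h2]
  | mul s t ihs iht =>
    have h1 : ∀ i ∈ tvars s, x i = y i := fun i hi => h i (by
      simp only [tvars, Tm.toks, List.flatMap_append, List.mem_append] at hi ⊢
      exact Or.inl (Or.inl hi))
    have h2 : ∀ i ∈ tvars t, x i = y i := fun i hi => h i (by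
      simp only [tvars, Tm.toks, List.flatMap_append, List.mem_append] at hi ⊢
      exact Or.inl (Or.inr hi))
    simp only [Tm.eval, ihs h1, iht h2]

theorem holds_congr (x y : ℕ → ℝ) (φ : Fm) (h : ∀ i ∈ fvars φ, x i = y i) :
    φ.Holds x ↔ φ.Holds y := by
  induction φ with
  | eq s t =>
    have h1 : ∀ i ∈ tvars s, x i = y i := fun i hi => h i (by
      simp only [fvars, tvars, Fm.toks, List.flatMap_append, List.mem_append] at hi ⊢
      exact Or.inl (Or.inl hi))
    have h2 : ∀ i ∈ tvars t, x i = y i := fun i hi => h i (by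
      simp only [fvars, tvars, Fm.toks, List.flatMap_append, List.mem_append] at hi ⊢
      exact Or.inl (Or.inr hi))
    simp only [Fm.Holds, eval_congr x y s h1, eval_congr x y t h2]
  | lt s t =>
    have h1 : ∀ i ∈ tvars s, x i = y i := fun i hi => h i (by
      simp only [fvars, tvars, Fm.toks, List.flatMap_append, List.mem_append] at hi ⊢
      exact Or.inl (Or.inl hi))
    have h2 : ∀ i ∈ tvars t, x i = y i := fun i hi => h i (by
      simp only [fvars, tvars, Fm.toks, List.flatMap_append, List.mem_append] at hi ⊢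
      exact Or.inl (Or.inr hi))
    simp only [Fm.Holds, eval_congr x y s h1, eval_congr x y t h2]
  | le s t =>
    have h1 : ∀ i ∈ tvars s, x i = y i := fun i hi => h i (by
      simp only [fvars, tvars, Fm.toks, List.flatMap_append, List.mem_append] at hi ⊢
      exact Or.inl (Or.inl hi))
    have h2 : ∀ i ∈ tvars t, x i = y i := fun i hi => h i (by
      simp only [fvars, tvars, Fm.toks, List.flatMap_append, List.mem_append] at hi ⊢
      exact Or.inl (Or.inr hi))
    simp only [Fm.Holds, eval_congr x y s h1, eval_congr x y t h2]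
  | not φ ih =>
    have h2 : ∀ i ∈ fvars φ, x i = y i := fun i hi => h i (by
      simp only [fvars, Fm.toks, List.flatMap_append, List.mem_append] at hi ⊢
      exact Or.inl hi)
    simp only [Fm.Holds, ih h2]
  | and φ ψ ih1 ih2 =>
    have h1 : ∀ i ∈ fvars φ, x i = y i := fun i hi => h i (by
      simp only [fvars, Fm.toks, List.flatMap_append, List.mem_append] at hi ⊢
      exact Or.inl (Or.inl hi))
    have h2 : ∀ i ∈ fvars ψ, x i = y i := fun i hi => h i (by
      simp only [fvars, Fm.toks, List.flatMap_append, List.mem_append] at hi ⊢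
      exact Or.inl (Or.inr hi))
    simp only [Fm.Holds, ih1 h1, ih2 h2]
  | or φ ψ ih1 ih2 =>
    have h1 : ∀ i ∈ fvars φ, x i = y i := fun i hi => h i (by
      simp only [fvars, Fm.toks, List.flatMap_append, List.mem_append] at hi ⊢
      exact Or.inl (Or.inl hi))
    have h2 : ∀ i ∈ fvars ψ, x i = y i := fun i hi => h i (by
      simp only [fvars, Fm.toks, List.flatMap_append, List.mem_append] at hi ⊢
      exact Or.inl (Or.inr hi))
    simp only [Fm.Holds, ih1 h1, ih2 h2]

theorem isoPt_iff (n : ℕ) (l : List Unit) (h : l.length = n) (φ : Fm) :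
    IsoPt (l, φ) ↔ ∃ x ∈ semi n φ, ∃ ε > (0 : ℝ), ∀ y ∈ semi n φ, dist y x < ε → y = x := by
  subst h
  rfl

theorem iso : S_ISO := by
  intro Φ
  unfold isoInst
  set U : List ℕ := (fvars Φ).dedup with hU
  have hUn : U.Nodup := List.nodup_dedup _
  have hUm : ∀ i, i ∈ U ↔ i ∈ fvars Φ := fun i => List.mem_dedup
  rw [isoPt_iff U.length _ (by simp)]
  set n := U.length with hn
  let E : (Fin n → ℝ) → (ℕ → ℝ) := fun x i => if i ∈ U then xt x (U.idxOf i) else 0
  let R : (ℕ → ℝ) → (Fin n → ℝ) := fun y j => y (U.get j)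
  have hER : ∀ (x : Fin n → ℝ) (j : Fin n), E x (U.get j) = x j := by
    intro x j
    have h1 : U.get j ∈ U := List.get_mem _ _
    have h2 : U.idxOf (U.get j) = (j : ℕ) := by
      simpa using hUn.idxOf_getElem (j : ℕ) j.2
    simp only [E, if_pos h1]
    rw [h2, xt_fin]
  have hRE : ∀ x : Fin n → ℝ, R (E x) = x := fun x => funext fun j => hER x j
  have hidx : ∀ (i : ℕ) (hi : i ∈ U), U.get ⟨U.idxOf i, List.idxOf_lt_length_of_mem hi⟩ = i := by
    intro i hi
    simp
  have hEx : ∀ (x : Fin n → ℝ) (i : ℕ) (hi : i ∈ U),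
      E x i = x ⟨U.idxOf i, List.idxOf_lt_length_of_mem hi⟩ := by
    intro x i hi
    have := hER x ⟨U.idxOf i, List.idxOf_lt_length_of_mem hi⟩
    rw [hidx i hi] at this
    exact this
  have hEo : ∀ (x : Fin n → ℝ) (i : ℕ), i ∉ U → E x i = 0 := fun x i hi => by
    simp only [E, if_neg hi]
  have hEE : ∀ y ∈ sols Φ, E (R y) = y := by
    intro y hy
    funext i
    by_cases hi : i ∈ U
    · rw [hEx _ i hi]
      show y (U.get ⟨U.idxOf i, List.idxOf_lt_length_of_mem hi⟩) = y i
      rw [hidx i hi]
    · rw [hEo _ i hi]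
      exact (hy.1 i (by rwa [← hUm])).symm
  have hsem : ∀ x : Fin n → ℝ, x ∈ semi n (fren (fun i => U.idxOf i) Φ) ↔ E x ∈ sols Φ := by
    intro x
    have h1 : x ∈ semi n (fren (fun i => U.idxOf i) Φ) ↔
        Φ.Holds (fun i => xt x (U.idxOf i)) := fren_holds _ _ _
    rw [h1, holds_congr (fun i => xt x (U.idxOf i)) (E x) Φ (fun i hi => by
      have h2 : i ∈ U := (hUm i).2 hi
      simp only [E, if_pos h2])]
    constructor
    · intro h
      exact ⟨fun i hi => hEo x i (by rwa [hUm]), h⟩
    · intro h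
      exact h.2
  constructor
  · rintro ⟨x, hx, ε, hε, h⟩
    refine ⟨E x, (hsem x).1 hx, ε, hε, fun y hy hd => ?_⟩
    have h1 : R y = x := by
      refine h (R y) ((hsem _).2 (by rw [hEE y hy]; exact hy)) ?_
      rw [dist_pi_lt_iff hε]
      intro j
      rw [Real.dist_eq]
      have := hd (U.get j) ((hUm _).1 (List.get_mem _ _))
      rw [hER] at this
      exact this
    rw [← hEE y hy, h1]
  · rintro ⟨x, hx, ε, hε, h⟩
    refine ⟨R x, (hsem _).2 (by rw [hEE x hx]; exact hx), ε, hε, fun y hy hd => ?_⟩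
    have h1 : E y = x := by
      refine h (E y) ((hsem y).1 hy) (fun i hi => ?_)
      have h2 : i ∈ U := (hUm i).2 hi
      rw [dist_pi_lt_iff hε] at hd
      have h3 := hd ⟨U.idxOf i, List.idxOf_lt_length_of_mem h2⟩
      rw [Real.dist_eq] at h3
      rw [hEx y i h2]
      have h4 : R x ⟨U.idxOf i, List.idxOf_lt_length_of_mem h2⟩ = x i := by
        show x (U.get ⟨U.idxOf i, List.idxOf_lt_length_of_mem h2⟩) = x i
        rw [hidx i h2]
      rw [h4] at h3
      exact h3
    rw [← h1, hRE]

end Pool.Agent.W308.IP
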