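import Pool.Agent.W482.IP.Stm

/-!
Project IP, task LPM: the linear program in matrix form.
-/

set_option autoImplicit false

namespace Pool.Agent.W308.IP

open Finset Pool.Agent.W482.IP

/-- the rows as functionals on sequences -/
def fn {R : Type} [CommRing R] (r : ℕ) (T : R) (i : ℕ) (z : ℕ → R) : R :=
  if i < 3 * r then
    (if i % 3 = 0 then z (2 * (i / 3) + 2) - T ^ 2 ^ (r - 1 - i / 3) * z (2 * (i / 3))
      else if i % 3 = 1 then z (2 * (i / 3) + 2) - T ^ 2 ^ (r - 1 - i / 3) * z (2 * (i / 3) + 1)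
      else z (2 * (i / 3) + 3) - z (2 * (i / 3)) - z (2 * (i / 3) + 1))
  else if i = 3 * r then z 0
  else if i = 3 * r + 1 then z 1
  else if i = 3 * r + 2 then - z (2 * r)
  else - z (2 * r + 1)

/-- the right hand sides -/
def rhs {R : Type} [CommRing R] (r : ℕ) (T : R) (i : ℕ) : R :=
  if i = 3 * r then T ^ (2 ^ r + 1) else if i = 3 * r + 1 then 1 else 0

section vals
variable {R : Type} [CommRing R] {r : ℕ} (T : R) (z : ℕ → R)

theorem fn0 {j : ℕ} (h : j < r) :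
    fn r T (3 * j) z = z (2 * j + 2) - T ^ 2 ^ (r - 1 - j) * z (2 * j) := by
  have h1 : 3 * j < 3 * r := by omega
  have h2 : 3 * j % 3 = 0 := by omega
  have h3 : 3 * j / 3 = j := by omega
  unfold fn
  rw [if_pos h1, if_pos h2, h3]

theorem fn1 {j : ℕ} (h : j < r) :
    fn r T (3 * j + 1) z = z (2 * j + 2) - T ^ 2 ^ (r - 1 - j) * z (2 * j + 1) := by
  have h1 : 3 * j + 1 < 3 * r := by omega
  have h2 : ¬ (3 * j + 1) % 3 = 0 := by omega
  have h2' : (3 * j + 1) % 3 = 1 := by omega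
  have h3 : (3 * j + 1) / 3 = j := by omega
  unfold fn
  rw [if_pos h1, if_neg h2, if_pos h2', h3]

theorem fn2 {j : ℕ} (h : j < r) :
    fn r T (3 * j + 2) z = z (2 * j + 3) - z (2 * j) - z (2 * j + 1) := by
  have h1 : 3 * j + 2 < 3 * r := by omega
  have h2 : ¬ (3 * j + 2) % 3 = 0 := by omega
  have h2' : ¬ (3 * j + 2) % 3 = 1 := by omega
  have h3 : (3 * j + 2) / 3 = j := by omega
  unfold fn
  rw [if_pos h1, if_neg h2, if_neg h2', h3]

theorem fn3 : fn r T (3 * r) z = z 0 := by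
  unfold fn
  rw [if_neg (lt_irrefl _), if_pos rfl]

theorem fn4 : fn r T (3 * r + 1) z = z 1 := by
  unfold fn
  rw [if_neg (by omega), if_neg (by omega), if_pos rfl]

theorem fn5 : fn r T (3 * r + 2) z = - z (2 * r) := by
  unfold fn
  rw [if_neg (by omega), if_neg (by omega), if_neg (by omega), if_pos rfl]

theorem fn6 : fn r T (3 * r + 3) z = - z (2 * r + 1) := by
  unfold fn
  rw [if_neg (by omega), if_neg (by omega), if_neg (by omega), if_neg (by omega)]

theorem rhs0 {i : ℕ} (h : i < 3 * r) : rhs r T i = 0 := by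
  unfold rhs
  rw [if_neg (by omega), if_neg (by omega)]

theorem rhs0' {i : ℕ} (h : 3 * r + 2 ≤ i) : rhs r T i = 0 := by
  unfold rhs
  rw [if_neg (by omega), if_neg (by omega)]

theorem rhs3 : rhs r T (3 * r) = T ^ (2 ^ r + 1) := by
  unfold rhs
  rw [if_pos rfl]

theorem rhs4 : rhs r T (3 * r + 1) = 1 := by
  unfold rhs
  rw [if_neg (by omega), if_pos rfl]

end vals

/-- all rows -/
theorem all_rows (P : ℕ → Prop) (r : ℕ) : (∀ i : Fin (3 * r + 4), P i) ↔
    (P (3 * r) ∧ P (3 * r + 1) ∧ (∀ j < r, P (3 * j) ∧ P (3 * j + 1) ∧ P (3 * j + 2)) ∧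
      P (3 * r + 2) ∧ P (3 * r + 3)) := by
  constructor
  · intro h
    refine ⟨h ⟨3 * r, by omega⟩, h ⟨3 * r + 1, by omega⟩, fun j hj => ⟨h ⟨3 * j, by omega⟩,
      h ⟨3 * j + 1, by omega⟩, h ⟨3 * j + 2, by omega⟩⟩, h ⟨3 * r + 2, by omega⟩,
      h ⟨3 * r + 3, by omega⟩⟩
  · rintro ⟨h3, h4, h012, h5, h6⟩ ⟨i, hi⟩
    show P i
    by_cases h : i < 3 * r
    · obtain ⟨h0, h1, h2⟩ := h012 (i / 3) (by omega)
      have h7 : i = 3 * (i / 3) ∨ i = 3 * (i / 3) + 1 ∨ i = 3 * (i / 3) + 2 := by omega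
      rcases h7 with h7 | h7 | h7
      · rw [h7]; exact h0
      · rw [h7]; exact h1
      · rw [h7]; exact h2
    · have h7 : i = 3 * r ∨ i = 3 * r + 1 ∨ i = 3 * r + 2 ∨ i = 3 * r + 3 := by omega
      rcases h7 with h7 | h7 | h7 | h7
      · rw [h7]; exact h3
      · rw [h7]; exact h4
      · rw [h7]; exact h5
      · rw [h7]; exact h6

theorem sum_ind {N : ℕ} (x : Fin N → ℝ) (k : ℕ) :
    ∑ l : Fin N, (if (l : ℕ) = k then (1 : ℝ) else 0) * x l = ext x k := by
  unfold Pool.Agent.W482.IP.ext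
  split_ifs with h
  · rw [sum_eq_single (⟨k, h⟩ : Fin N)]
    · simp
    · intro l _ hl
      rw [if_neg, zero_mul]
      intro h1
      exact hl (Fin.ext h1)
    · intro h1
      exact absurd (mem_univ _) h1
  · apply sum_eq_zero
    intro l _
    rw [if_neg, zero_mul]
    intro h1
    exact h (h1 ▸ l.isLt)

/-- the matrix entries -/
def co (r T : ℕ) (i l : ℕ) : ℤ := fn r (T : ℤ) i (fun k => if l = k then 1 else 0)

theorem row_co {N : ℕ} (r T i : ℕ) (x : Fin N → ℝ) :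
    ∑ l : Fin N, ((co r T i l : ℤ) : ℝ) * x l = fn r (T : ℝ) i (ext x) := by
  have hl : ∀ (s : ℝ) (k : ℕ), ∑ l : Fin N, s * ((if (l : ℕ) = k then (1 : ℝ) else 0) * x l) =
      s * ext x k := by
    intro s k
    rw [← mul_sum, sum_ind]
  unfold co fn
  split_ifs
  all_goals push_cast
  all_goals simp only [sub_mul, sum_sub_distrib, neg_mul, sum_neg_distrib, mul_assoc, hl, sum_ind]

theorem co_le (r T i l : ℕ) (hT : 1 ≤ T) : |co r T i l| ≤ (T : ℤ) ^ 2 ^ r := by
  have hT' : (1 : ℤ) ≤ T := by exact_mod_cast hT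
  have h1 : (1 : ℤ) ≤ (T : ℤ) ^ 2 ^ r := one_le_pow₀ hT'
  have h2 : ∀ j, (T : ℤ) ^ 2 ^ (r - 1 - j) ≤ (T : ℤ) ^ 2 ^ r := fun j =>
    pow_le_pow_right₀ hT' (Nat.pow_le_pow_right (by norm_num) (by omega))
  have h3 : ∀ j, (1 : ℤ) ≤ (T : ℤ) ^ 2 ^ (r - 1 - j) := fun j => one_le_pow₀ hT'
  have h4 := h2 (i / 3)
  have h5 := h3 (i / 3)
  unfold co fn
  generalize (T : ℤ) ^ 2 ^ (r - 1 - i / 3) = t at h4 h5 ⊢
  generalize (T : ℤ) ^ 2 ^ r = M at h1 h4 ⊢
  beta_reduce
  split_ifs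
  all_goals first
    | omega
    | (rw [abs_le]
       constructor <;> linarith)

theorem lpm : LPM := by
  intro r T hT
  have hT' : (1 : ℤ) ≤ T := by exact_mod_cast hT
  have hrow : ∀ (x : Fin (2 * r + 2) → ℝ) (i : Fin (3 * r + 4)),
      row (fun i j => co r T i j) x i = fn r (T : ℝ) i (Pool.Agent.W482.IP.ext x) :=
    fun x i => row_co r T i x
  have hrhs : ∀ i : ℕ, ((rhs r (T : ℤ) i : ℤ) : ℝ) = rhs r (T : ℝ) i := by
    intro i
    unfold rhs
    split_ifs <;> push_cast <;> rfl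
  refine ⟨fun i j => co r T i j, fun i => rhs r (T : ℤ) i, fun j => if (j : ℕ) = 0 then 1 else 0,
    fun i j => co_le r T i j hT, ?_, ?_, ?_, ?_, ?_, ?_, ?_⟩
  · intro i
    have h1 : (1 : ℤ) ≤ (T : ℤ) ^ (2 ^ r + 1) := one_le_pow₀ hT'
    show |rhs r (T : ℤ) i| ≤ _
    unfold rhs
    split_ifs
    · rw [abs_of_nonneg (by positivity)]
    · rw [abs_one]; exact h1
    · rw [abs_zero]; positivity
  · intro j
    by_cases h : (j : ℕ) = 0
    · right; simp [h]
    · left; simp [h]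
  · intro x
    unfold cost
    have := sum_ind x 0
    rw [← this]
    refine sum_congr rfl fun j _ => ?_
    push_cast
    rfl
  · intro x
    have h := all_rows (fun i => fn r (T : ℝ) i (Pool.Agent.W482.IP.ext x) ≤ rhs r (T : ℝ) i) r
    have h' : x ∈ poly (fun i j => co r T i j) (fun i : Fin (3 * r + 4) => rhs r (T : ℤ) i) ↔
        ∀ i : Fin (3 * r + 4), fn r (T : ℝ) i (Pool.Agent.W482.IP.ext x) ≤ rhs r (T : ℝ) i := by
      constructor
      · intro hx i
        have h1 := hx i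
        rw [hrow, hrhs] at h1
        exact h1
      · intro hx i
        rw [hrow, hrhs]
        exact hx i
    rw [h', h, fn3, fn4, fn5, fn6, rhs3, rhs4, rhs0' _ (by omega), rhs0' _ (by omega)]
    unfold Le
    constructor
    · rintro ⟨h3, h4, h012, h5, h6⟩
      refine ⟨h3, h4, fun j hj => ?_, by linarith, by linarith⟩
      obtain ⟨g0, g1, g2⟩ := h012 j hj
      rw [fn0 _ _ hj, rhs0 _ (by omega)] at g0
      rw [fn1 _ _ hj, rhs0 _ (by omega)] at g1
      rw [fn2 _ _ hj, rhs0 _ (by omega)] at g2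
      exact ⟨by linarith, by linarith, by linarith⟩
    · rintro ⟨h3, h4, h012, h5, h6⟩
      refine ⟨h3, h4, fun j hj => ?_, by linarith, by linarith⟩
      obtain ⟨g0, g1, g2⟩ := h012 j hj
      rw [fn0 _ _ hj, rhs0 _ (by omega), fn1 _ _ hj, rhs0 _ (by omega), fn2 _ _ hj,
        rhs0 _ (by omega)]
      exact ⟨by linarith, by linarith, by linarith⟩
  · intro x
    have h := all_rows (fun i => fn r (T : ℝ) i (Pool.Agent.W482.IP.ext x) < rhs r (T : ℝ) i) r
    have h' : x ∈ inner (fun i j => co r T i j) (fun i : Fin (3 * r + 4) => rhs r (T : ℤ) i) ↔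
        ∀ i : Fin (3 * r + 4), fn r (T : ℝ) i (Pool.Agent.W482.IP.ext x) < rhs r (T : ℝ) i := by
      constructor
      · intro hx i
        have h1 := hx i
        rw [hrow, hrhs] at h1
        exact h1
      · intro hx i
        rw [hrow, hrhs]
        exact hx i
    rw [h', h, fn3, fn4, fn5, fn6, rhs3, rhs4, rhs0' _ (by omega), rhs0' _ (by omega)]
    unfold Pool.Agent.W482.IP.Lt
    constructor
    · rintro ⟨h3, h4, h012, h5, h6⟩
      refine ⟨h3, h4, fun j hj => ?_, by linarith, by linarith⟩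
      obtain ⟨g0, g1, g2⟩ := h012 j hj
      rw [fn0 _ _ hj, rhs0 _ (by omega)] at g0
      rw [fn1 _ _ hj, rhs0 _ (by omega)] at g1
      rw [fn2 _ _ hj, rhs0 _ (by omega)] at g2
      exact ⟨by linarith, by linarith, by linarith⟩
    · rintro ⟨h3, h4, h012, h5, h6⟩
      refine ⟨h3, h4, fun j hj => ?_, by linarith, by linarith⟩
      obtain ⟨g0, g1, g2⟩ := h012 j hj
      rw [fn0 _ _ hj, rhs0 _ (by omega), fn1 _ _ hj, rhs0 _ (by omega), fn2 _ _ hj,
        rhs0 _ (by omega)]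
      exact ⟨by linarith, by linarith, by linarith⟩
  · refine ⟨⟨3 * r + 2, by omega⟩, fun x => ?_⟩
    rw [hrow, hrhs]
    show rhs r (T : ℝ) (3 * r + 2) - fn r (T : ℝ) (3 * r + 2) (Pool.Agent.W482.IP.ext x) = _
    rw [fn5, rhs0' _ (by omega)]
    ring
  · intro hr
    refine ⟨⟨3 * 0, by omega⟩, fun x => ?_⟩
    rw [hrow, hrhs]
    show rhs r (T : ℝ) (3 * 0) - fn r (T : ℝ) (3 * 0) (Pool.Agent.W482.IP.ext x) = _
    rw [fn0 _ _ hr, rhs0 _ (by omega)]
    simp

end Pool.Agent.W308.IP
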